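import Mathlib
import Pool.Agent.Results.MP_620441_co.AffineHull

set_option autoImplicit false
open Finset

namespace Pool.Agent.Results.MP_173ebf_co.Maximum

/-- Points of `d`-space. -/
abbrev Pt (d : ℕ) := Fin d → ℝ

/-- `A` and `B` are nonempty and disjoint and their convex hulls intersect. -/
def RadonPair {d : ℕ} (A B : Finset (Pt d)) : Prop :=
  A.Nonempty ∧ B.Nonempty ∧ (∀ x ∈ A, x ∉ B) ∧
    (convexHull ℝ (A : Set (Pt d)) ∩ convexHull ℝ (B : Set (Pt d))).Nonempty

/-- The set of unordered Radon partitions of `S` of type `{i, |S| - i}`. -/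
def Parts {d : ℕ} (S : Finset (Pt d)) (i : ℕ) : Set (Sym2 (Finset (Pt d))) :=
  {q : Sym2 (Finset (Pt d)) | ∃ A B, q = s(A, B) ∧ RadonPair A B ∧ (A : Set (Pt d)) ∪ B = S ∧
    A.card = i}

/-- `r_i(S)`. -/
noncomputable def radonNum {d : ℕ} (S : Finset (Pt d)) (i : ℕ) : ℕ := (Parts S i).ncard

/-- `R(d, m)`: the set of all Radon vectors of sets of `m` points of `d`-space.
Coordinate `j : Fin (m / 2)` is `r_{j+1}(S)`. -/
def RadonVectors (d m : ℕ) : Set (Fin (m / 2) → ℕ) :=
  {r | ∃ S : Finset (Pt d), S.card = m ∧ r = fun j : Fin (m / 2) => radonNum S ((j : ℕ) + 1)}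

/-- `C(m, i) - 2` for `i < m / 2`, and half of this for `i = m / 2`; here `i = j + 1`. -/
def rho (m : ℕ) : Fin (m / 2) → ℕ := fun j =>
  if 2 * ((j : ℕ) + 1) = m then (m.choose ((j : ℕ) + 1) - 2) / 2 else m.choose ((j : ℕ) + 1) - 2

theorem parts_sub {d : ℕ} {S A B : Finset (Pt d)} (h : (A : Set (Pt d)) ∪ B = S) :
    A ⊆ S ∧ B ⊆ S := by
  constructor
  · intro x hx
    have : x ∈ (A : Set (Pt d)) ∪ B := Or.inl hx
    rw [h] at this
    exact this
  · intro x hx
    have : x ∈ (A : Set (Pt d)) ∪ B := Or.inr hx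
    rw [h] at this
    exact this

theorem parts_finite {d : ℕ} (S : Finset (Pt d)) (i : ℕ) : (Parts S i).Finite := by
  classical
  apply Set.Finite.subset ((S.powerset ×ˢ S.powerset).image (fun p => s(p.1, p.2))).finite_toSet
  rintro q ⟨A, B, rfl, _, h, _⟩
  obtain ⟨h1, h2⟩ := parts_sub h
  rw [Finset.mem_coe, Finset.mem_image]
  exact ⟨(A, B), by simp [h1, h2], rfl⟩

/-- Linear maps which are injective on `S` do not decrease the number of Radon partitions. -/
theorem radonNum_le {d e : ℕ} [DecidableEq (Pt d)] [DecidableEq (Pt e)] (f : Pt d →ₗ[ℝ] Pt e)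
    (S : Finset (Pt d)) (hf : Set.InjOn f S) (i : ℕ) :
    radonNum S i ≤ radonNum (S.image f) i := by
  apply Set.ncard_le_ncard_of_injOn (Sym2.map (Finset.image f)) _ _ (parts_finite _ _)
  · rintro q ⟨A, B, rfl, ⟨hA, hB, hd, x, hx1, hx2⟩, hS, hi⟩
    obtain ⟨hAS, hBS⟩ := parts_sub hS
    refine ⟨A.image f, B.image f, by simp, ⟨hA.image f, hB.image f, ?_, f x, ?_, ?_⟩, ?_, ?_⟩
    · intro y hy hy'
      rw [Finset.mem_image] at hy hy'
      obtain ⟨a, ha, rfl⟩ := hy
      obtain ⟨b, hb, hab⟩ := hy'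
      have := hf (hBS hb) (hAS ha) hab
      subst this
      exact hd b ha hb
    · rw [Finset.coe_image, ← LinearMap.image_convexHull]
      exact ⟨x, hx1, rfl⟩
    · rw [Finset.coe_image, ← LinearMap.image_convexHull]
      exact ⟨x, hx2, rfl⟩
    · rw [Finset.coe_image, Finset.coe_image, Finset.coe_image, ← Set.image_union, hS]
    · rw [Finset.card_image_of_injOn (hf.mono (by exact_mod_cast hAS)), hi]
  · have key : ∀ A A' : Finset (Pt d), A ⊆ S → A' ⊆ S → A.image f = A'.image f → A = A' := by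
      intro A A' h1 h2 h
      ext x
      constructor
      · intro hx
        have : f x ∈ A'.image f := h ▸ Finset.mem_image_of_mem f hx
        obtain ⟨y, hy, hxy⟩ := Finset.mem_image.mp this
        have := hf (h2 hy) (h1 hx) hxy
        subst this
        exact hy
      · intro hx
        have : f x ∈ A.image f := h ▸ Finset.mem_image_of_mem f hx
        obtain ⟨y, hy, hxy⟩ := Finset.mem_image.mp this
        have := hf (h1 hy) (h2 hx) hxy
        subst this
        exact hy
    rintro q ⟨A, B, rfl, _, hS, _⟩ q' ⟨A', B', rfl, _, hS', _⟩ h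
    obtain ⟨hAS, hBS⟩ := parts_sub hS
    obtain ⟨hAS', hBS'⟩ := parts_sub hS'
    simp only [Sym2.map_mk, Sym2.eq_iff] at h ⊢
    rcases h with ⟨h1, h2⟩ | ⟨h1, h2⟩
    · exact Or.inl ⟨key _ _ hAS hAS' h1, key _ _ hBS hBS' h2⟩
    · exact Or.inr ⟨key _ _ hAS hBS' h1, key _ _ hBS hAS' h2⟩

theorem exists_functional {d : ℕ} (S : Finset (Pt d)) :
    ∃ f : Pt d →ₗ[ℝ] Pt 1, Set.InjOn f S := by
  classical
  have hfin : Finite {p : Pt d × Pt d // p ∈ (S ×ˢ S) ∧ p.1 ≠ p.2} :=
    Set.Finite.to_subtype (s := {p : Pt d × Pt d | p ∈ (S ×ˢ S) ∧ p.1 ≠ p.2})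
      ((S ×ˢ S).finite_toSet.subset fun p hp => hp.1)
  obtain ⟨w, hw⟩ := Module.exists_dual_forall_apply_ne_zero (K := ℝ) (M := Pt d)
    (ι := {p : Pt d × Pt d // p ∈ (S ×ˢ S) ∧ p.1 ≠ p.2}) (fun p => p.1.1 - p.1.2)
    (fun p => sub_ne_zero.mpr p.2.2)
  refine ⟨LinearMap.pi fun _ => w, ?_⟩
  intro x hx y hy hxy
  by_contra hne
  have h1 := hw ⟨(x, y), by simp [Finset.mem_coe.mp hx, Finset.mem_coe.mp hy], hne⟩
  apply h1
  have h2 := congrFun hxy 0
  simp only [LinearMap.pi_apply] at h2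
  show w (x - y) = 0
  rw [map_sub, h2, sub_self]

theorem two_le_choose {m i : ℕ} (h1 : 1 ≤ i) (h2 : i < m) : 2 ≤ m.choose i := by
  obtain ⟨n, rfl⟩ : ∃ n, m = n + 1 := ⟨m - 1, by omega⟩
  obtain ⟨j, rfl⟩ : ∃ j, i = j + 1 := ⟨i - 1, by omega⟩
  rw [Nat.choose_succ_succ']
  have := Nat.choose_pos (n := n) (k := j) (by omega)
  have := Nat.choose_pos (n := n) (k := j + 1) (by omega)
  omega

/-- The case of the line. -/
theorem line (m : ℕ) (hm : 2 ≤ m) (S : Finset (Pt 1)) (hS : S.card = m) (j : Fin (m / 2)) :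
    radonNum S ((j : ℕ) + 1) = rho m j := by
  have hj : (j : ℕ) < m / 2 := j.2
  have hc := two_le_choose (m := m) (i := (j : ℕ) + 1) (by omega) (by omega)
  rcases Nat.eq_or_lt_of_le hm with h2 | h3
  · -- two points
    subst h2
    have hj0 : (j : ℕ) = 0 := by omega
    have hr : rho 2 j = 0 := by simp [rho]
    rw [hr, hj0]
    have : Parts S (0 + 1) = ∅ := by
      rw [Set.eq_empty_iff_forall_notMem]
      rintro q ⟨A, B, rfl, ⟨hA, hB, hd, x, hx1, hx2⟩, hU, hi⟩
      have hdis : Disjoint A B := Finset.disjoint_left.mpr hd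
      have hU' : A ∪ B = S := by
        apply Finset.coe_injective
        rw [Finset.coe_union, hU]
      have hcard := Finset.card_union_of_disjoint hdis
      rw [hU', hS, hi] at hcard
      obtain ⟨a, rfl⟩ := Finset.card_eq_one.mp hi
      obtain ⟨b, rfl⟩ := Finset.card_eq_one.mp (show B.card = 1 by omega)
      simp only [Finset.coe_singleton, convexHull_singleton, Set.mem_singleton_iff] at hx1 hx2
      apply hd a (Finset.mem_singleton_self a)
      rw [Finset.mem_singleton, ← hx1, hx2]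
    rw [radonNum, this, Set.ncard_empty]
  · have hgp : Pool.Agent.Results.MP_620441_co.AffineHull.GenPos 1 S := by
      intro w b hw
      have hw0 : w 0 ≠ 0 := by
        intro h
        apply hw
        funext i
        rw [Subsingleton.elim i 0, h]
        rfl
      rw [Set.ncard_le_one (S.finite_toSet.subset fun x hx => hx.1)]
      rintro a ⟨_, ha⟩ c ⟨_, hc'⟩
      simp only [dotProduct, Finset.univ_unique, Fin.default_eq_zero, Finset.sum_singleton]
        at ha hc'
      funext i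
      rw [Subsingleton.elim i 0]
      exact mul_left_cancel₀ hw0 (ha.trans hc'.symm)
    have hV : ((fun j : Fin (m / 2) => (radonNum S ((j : ℕ) + 1) : ℝ),
        fun i : Fin (1 / 2 + 1) =>
          (Pool.Agent.Results.MP_620441_co.AffineHull.primNum S ((i : ℕ) + 1) : ℝ)) :
          (Fin (m / 2) → ℝ) × (Fin (1 / 2 + 1) → ℝ)) ∈
        (affineSpan ℝ (Pool.Agent.Results.MP_620441_co.AffineHull.V m 1) : Set _) :=
      subset_affineSpan _ _ ⟨S, hS, hgp, rfl⟩
    rw [Pool.Agent.Results.MP_620441_co.AffineHull.result 1 m le_rfl (by omega)] at hV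
    have h7 := hV.2.2.2.2.2.2 rfl j
    simp only at h7
    unfold rho
    by_cases hmid : 2 * ((j : ℕ) + 1) = m
    · rw [if_pos hmid] at h7 ⊢
      have h8 : 2 * (radonNum S ((j : ℕ) + 1) : ℝ) + 2 = (m.choose ((j : ℕ) + 1) : ℝ) := by
        rw [h7]; ring
      have h9 : 2 * radonNum S ((j : ℕ) + 1) + 2 = m.choose ((j : ℕ) + 1) := by exact_mod_cast h8
      omega
    · rw [if_neg hmid] at h7 ⊢
      have h8 : (radonNum S ((j : ℕ) + 1) : ℝ) + 2 = (m.choose ((j : ℕ) + 1) : ℝ) := by
        rw [h7]; ring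
      have h9 : radonNum S ((j : ℕ) + 1) + 2 = m.choose ((j : ℕ) + 1) := by exact_mod_cast h8
      omega

/-- For all `d ≥ 1` and `m ≥ 2` the vector `rho m` is the coordinatewise largest element of
`R(d, m)`, and `R(1, m) = {rho m}`. -/
theorem result : ∀ d m : ℕ, 1 ≤ d → 2 ≤ m →
    rho m ∈ RadonVectors d m ∧ (∀ r ∈ RadonVectors d m, ∀ j, r j ≤ rho m j) ∧
      (d = 1 → RadonVectors d m = {rho m}) := by
  classical
  intro d m hd hm
  -- a set of `m` points of the line
  obtain ⟨S1, hS1⟩ : ∃ S1 : Finset (Pt 1), S1.card = m := by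
    refine ⟨(Finset.range m).image (fun i : ℕ => (fun _ => (i : ℝ) : Pt 1)), ?_⟩
    rw [Finset.card_image_of_injective, Finset.card_range]
    intro a b hab
    have h0 : (a : ℝ) = (b : ℝ) := congrFun hab 0
    exact_mod_cast h0
  have hmem : rho m ∈ RadonVectors d m := by
    let ι : Pt 1 →ₗ[ℝ] Pt d := LinearMap.pi fun _ => LinearMap.proj 0
    let g : Pt d →ₗ[ℝ] Pt 1 := LinearMap.pi fun _ => LinearMap.proj ⟨0, hd⟩
    have hgι : ∀ x, g (ι x) = x := by
      intro x
      funext i
      rw [Subsingleton.elim i 0]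
      rfl
    have hinj : Function.Injective ι := Function.LeftInverse.injective hgι
    have himg : (S1.image ι).image g = S1 := by
      rw [Finset.image_image]
      ext x
      simp [hgι]
    have hgi : Set.InjOn g (S1.image ι) := by
      intro x hx y hy hxy
      rw [Finset.coe_image] at hx hy
      obtain ⟨x', _, rfl⟩ := hx
      obtain ⟨y', _, rfl⟩ := hy
      rw [hgι, hgι] at hxy
      rw [hxy]
    refine ⟨S1.image ι, by rw [Finset.card_image_of_injective _ hinj, hS1], ?_⟩
    funext j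
    apply le_antisymm
    · rw [← line m hm S1 hS1 j]
      exact radonNum_le ι S1 hinj.injOn _
    · have h1 := radonNum_le g (S1.image ι) hgi ((j : ℕ) + 1)
      rw [himg, line m hm S1 hS1 j] at h1
      exact h1
  refine ⟨hmem, ?_, ?_⟩
  · rintro r ⟨S, hS, rfl⟩ j
    obtain ⟨f, hf⟩ := exists_functional S
    have h1 := radonNum_le f S hf ((j : ℕ) + 1)
    rw [line m hm (S.image f) (by rw [Finset.card_image_of_injOn hf, hS]) j] at h1
    exact h1
  · rintro rfl
    ext r
    constructor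
    · rintro ⟨S, hS, rfl⟩
      rw [Set.mem_singleton_iff]
      funext j
      exact line m hm S hS j
    · rintro rfl
      exact hmem

end Pool.Agent.Results.MP_173ebf_co.Maximum
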